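import Pool.Agent.H121.GA.IfA
import Pool.Agent.H909.Y987.Closek
import Pool.Agent.H796.Y987.Sep
import Pool.Agent.H800.Y987.Meas
import Pool.Agent.H788.Y987.Free
import Pool.Agent.H410.Y987.Troot
import Pool.Agent.H168.Y987.Op

/-! Project GA: comparison with the free operator (`S_closeb` from `S_near` and `S_opb`). -/

set_option autoImplicit false
set_option linter.unusedSectionVars false

open scoped BigOperators InnerProductSpace Topology ENNReal
open Filter MeasureTheory

namespace Pool.Agent.H190.GA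

open Pool.Agent.Y662.TR (LL Cf Mw dv hu clp)
open Pool.Agent.TH369.AN (Rz)
open Pool.Agent.H987.Z (Rs Gr Fr gZ HV)
open Pool.Agent.H987.Y
open Pool.Agent.H121.GA
open Pool.Agent.H909.Y987 (kB_diff free_treek)

/-! ### measurability -/

theorem meas_clpb (b : ℝ) : Measurable fun v : ℝ => clp b v := by
  unfold clp
  fun_prop

theorem meas_dgb {ι : Type} (b : ℝ) (x y : ι) : Measurable fun V : ι → ℝ => dgb b V x y := by
  classical
  unfold dgb
  by_cases h : x = y
  · simp only [if_pos h]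
    exact (meas_clpb b).comp (measurable_pi_apply x)
  · simp only [if_neg h]
    exact measurable_const

theorem meas_kNb {d N : ℕ} (b : ℝ) (t : Lt d → Lt d → ℝ) (x y : Lt d) :
    Measurable fun ω : Om d N => kNb b t ω x y := by
  unfold kNb
  have h1 : Measurable fun p : Ph d N => t (x + ph p) (y + ph p) := measurable_of_countable _
  exact (h1.comp measurable_fst).add ((meas_dgb b x y).comp measurable_snd)

theorem meas_kBb {X Ω : Type} [MeasurableSpace Ω] {n : ℕ} (k : Ω → X → X → ℝ)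
    (hk : ∀ x y, Measurable fun ω => k ω x y) (f : Bool) (o : X) (a : ℝ) (v v' : Vt X n) :
    Measurable fun W : List (Ix X n) → Ω => kB k f o a W v v' := by
  classical
  unfold kB
  refine Measurable.add ?_ measurable_const
  by_cases h : v.1 = v'.1
  · simp only [if_pos h]
    exact (hk _ _).comp (measurable_pi_apply _)
  · simp only [if_neg h]
    exact measurable_const

/-! ### the law of the potential at a point -/

theorem law_sheet (hsep : S_sep) {d N : ℕ} (hN : 0 < N) (ν : Measure ℝ) [IsProbabilityMeasure ν]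
    (F : ℝ → ℝ≥0∞) (hF : Measurable F) (y : Lt d) :
    ∫⁻ ω : Om d N, F (ω.2 y) ∂(PO d N ν) = ∫⁻ v, F v ∂ν := by
  have := (hsep d N 0 ν hN).1
  have := (hsep d N 0 ν hN).2.1
  have h1 : MeasurePreserving (fun ω : Om d N => ω.2) (PO d N ν)
      (Measure.infinitePi fun _ : Lt d => ν) := measurePreserving_snd
  have h2 : MeasurePreserving (fun V : Lt d → ℝ => V y)
      (Measure.infinitePi fun _ : Lt d => ν) ν :=
    measurePreserving_eval_infinitePi (fun _ : Lt d => ν) y
  exact (h2.comp h1).lintegral_comp hF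

theorem law_tree (hsep : S_sep) {d N n : ℕ} (hN : 0 < N) (ν : Measure ℝ) [IsProbabilityMeasure ν]
    (F : ℝ → ℝ≥0∞) (hF : Measurable F) (v : Vt (Lt d) n) :
    ∫⁻ W : List (Ix (Lt d) n) → Om d N, F ((W v.1).2 v.2)
      ∂(Measure.infinitePi fun _ : List (Ix (Lt d) n) => PO d N ν) = ∫⁻ v, F v ∂ν := by
  have := (hsep d N 0 ν hN).2.1
  have h1 : MeasurePreserving (fun W : List (Ix (Lt d) n) → Om d N => W v.1)
      (Measure.infinitePi fun _ : List (Ix (Lt d) n) => PO d N ν) (PO d N ν) :=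
    measurePreserving_eval_infinitePi (fun _ : List (Ix (Lt d) n) => PO d N ν) v.1
  have hG : Measurable fun ω : Om d N => F (ω.2 v.2) :=
    hF.comp ((measurable_pi_apply v.2).comp measurable_snd)
  rw [← law_sheet hsep hN ν F hF v.2]
  exact h1.lintegral_comp hG

/-- **Comparison with the free operator.** -/
theorem closeb' (hop : S_op) (hroot : S_troot) (hmeas : S_meas) (hfree : S_free) (hsep : S_sep)
    (hnear : S_near) (hopb : S_opb) : S_closeb := by
  intro d α β c C hF θ η hθ hη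
  obtain ⟨hopb1, hopb2, hopb3⟩ := hopb
  have hρ : (0 : ℝ) < |α| + |β| + 1 := by positivity
  have hh0 : (0 : ℝ) < 4 * d + 1 := by positivity
  obtain ⟨δ, hδ0, hδ1, hmain⟩ := hnear θ η (4 * d + 1) (|α| + |β| + 1) c hθ hη hh0 hρ hF.c0
  refine ⟨δ, hδ0, hδ1, fun N R t h δ' hN hnet hker ν _ hMs b hb z hz1 hz2 hz3 hz4 => ?_⟩
  obtain ⟨hM2, hM12⟩ := hMs
  have hPO : IsProbabilityMeasure (PO d N ν) := (hsep d N 0 ν hN).2.1
  have hz0 : 0 < z.im := hθ.trans_le hz3
  have hgz : c ≤ (gZ d z).im := hF.lo z hz1 hz2 hz0 hz4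
  have hre : |z.re| ≤ |α| + |β| + 1 := by
    rw [abs_le]
    constructor
    · have := neg_abs_le α
      have := abs_nonneg β
      linarith
    · have := le_abs_self β
      have := abs_nonneg α
      linarith
  have hfz : Gr (Op (kf d)) z 0 0 = gZ d z := (hfree d).2.2.2 z hz0.ne'
  have hkf : Ker (4 * d) (kf d) := (hfree d).1
  have hM2f : Measurable fun v : ℝ => ENNReal.ofReal (v ^ 2) := by fun_prop
  have hM12f : Measurable fun v : ℝ => ENNReal.ofReal (v ^ 12) := by fun_prop
  have hsh : ∀ ω : Om d N, Ker h fun x y => t (x + ph ω.1) (y + ph ω.1) :=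
    fun ω => hnet.ker.shift (ph ω.1)
  have hdiff : ∀ ω : Om d N, Ker δ' fun x y => t (x + ph ω.1) (y + ph ω.1) - kf d x y := by
    intro ω
    refine (hker.shift (ph ω.1)).congr fun x y => ?_
    rw [(hfree d).2.2.1]
  constructor
  · intro hN'
    have hOp : ∀ ω : Om d N, Op (kNb b t ω) =
        HW (Op fun x y => t (x + ph ω.1) (y + ph ω.1)) b ω.2 :=
      fun ω => (hopb1 _ _ h b (hsh ω) hb ω.2).2
    have hKb : ∀ ω : Om d N, Ker (h + b) (kNb b t ω) := fun ω => (hopb1 _ _ h b (hsh ω) hb ω.2).1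
    have h0 : Rs (Op (kf d)) := (hop _ _ _ hkf).2.2.1
    have h1 : ‖Op (kf d)‖ ≤ 4 * d + 1 := ((hop _ _ _ hkf).2.1).trans (by linarith)
    have h2 : ∀ ω : Om d N, Rs (Op fun x y => t (x + ph ω.1) (y + ph ω.1)) :=
      fun ω => (hop _ _ _ (hsh ω)).2.2.1
    have h3 : ∀ ω : Om d N, ‖(Op fun x y => t (x + ph ω.1) (y + ph ω.1)) - Op (kf d)‖ ≤ δ :=
      fun ω => ((hop _ _ _ (hsh ω)).2.2.2.2 (kf d) (4 * d) δ' hkf (hdiff ω)).trans hN'
    have h4 : Measurable fun ω : Om d N => Gr (HW (Op fun x y => t (x + ph ω.1) (y + ph ω.1)) b ω.2)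
        z 0 0 := by
      have := hmeas (Lt d) (Om d N) (kNb b t) (h + b) hKb (fun x y => meas_kNb b t x y) z 0 0 hz0.ne'
      simp only [hOp] at this
      exact this
    have h5 : ∀ y : Lt d, Measurable fun ω : Om d N => ω.2 y :=
      fun y => (measurable_pi_apply y).comp measurable_snd
    have h6 : ∀ y : Lt d, ∫⁻ ω : Om d N, ENNReal.ofReal (ω.2 y ^ 2) ∂(PO d N ν) ≤
        ENNReal.ofReal δ := by
      intro y
      rw [law_sheet hsep hN ν (fun v => ENNReal.ofReal (v ^ 2)) hM2f y]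
      exact hM2
    have h7 : ∫⁻ ω : Om d N, ENNReal.ofReal (ω.2 0 ^ 12) ∂(PO d N ν) ≤ 1 := by
      rw [law_sheet hsep hN ν (fun v => ENNReal.ofReal (v ^ 12)) hM12f 0]
      exact hM12
    have h8 := hmain (Lt d) (Om d N) (PO d N ν) (Op (kf d))
      (fun ω => Op fun x y => t (x + ph ω.1) (y + ph ω.1)) (fun ω => ω.2) 0 b z h0 h1 h2 h3 h4 h5
      h6 h7 hb hre hz3 hz4 (by rw [hfz]; exact hgz)
    rw [hfz] at h8
    simp only [hOp]
    exact h8
  · intro n a hN' f
    set P := Measure.infinitePi fun _ : List (Ix (Lt d) n) => PO d N ν with hP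
    have : IsProbabilityMeasure P := by rw [hP]; infer_instance
    set kT : Om d N → Lt d → Lt d → ℝ := fun ω x y => t (x + ph ω.1) (y + ph ω.1) with hkT
    have hKT : ∀ W : List (Ix (Lt d) n) → Om d N, Ker (h + |a| * (n + 2)) (kB kT f 0 a W) :=
      fun W => (hroot (Lt d) (Om d N) n kT h hsh f 0 a W).1
    have hkB : ∀ W : List (Ix (Lt d) n) → Om d N, kB (kNb b t) f (0 : Lt d) a W =
        fun v v' => kB kT f 0 a W v v' + dgb b (fun v : Vt (Lt d) n => (W v.1).2 v.2) v v' :=
      fun W => by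
        funext v v'
        exact hopb3 d N n t f a b W v v'
    have hOp : ∀ W : List (Ix (Lt d) n) → Om d N, Op (kB (kNb b t) f (0 : Lt d) a W) =
        HW (Op (kB kT f 0 a W)) b (fun v : Vt (Lt d) n => (W v.1).2 v.2) := fun W => by
      rw [hkB W]
      exact (hopb1 _ _ _ b (hKT W) hb _).2
    have hKb : ∀ W : List (Ix (Lt d) n) → Om d N,
        Ker (h + |a| * (n + 2) + b) (kB (kNb b t) f (0 : Lt d) a W) := fun W => by
      rw [hkB W]
      exact (hopb1 _ _ _ b (hKT W) hb _).1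
    set T0 : LL (Vt (Lt d) n) →L[ℂ] LL (Vt (Lt d) n) :=
      Op (kB (fun _ : Unit => kf d) f (0 : Lt d) 0 (fun _ => ())) with hT0
    have hK0 : Ker (4 * d) (kB (fun _ : Unit => kf d) f (0 : Lt d) 0
        (fun _ : List (Ix (Lt d) n) => ())) := by
      have := (hroot (Lt d) Unit n (fun _ => kf d) (4 * d) (fun _ => hkf) f 0 0 (fun _ => ())).1
      refine this.mono ?_
      simp
    have h0 : Rs T0 := (hop _ _ _ hK0).2.2.1
    have h1 : ‖T0‖ ≤ 4 * d + 1 := ((hop _ _ _ hK0).2.1).trans (by linarith)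
    have h2 : ∀ W : List (Ix (Lt d) n) → Om d N, Rs (Op (kB kT f 0 a W)) :=
      fun W => (hop _ _ _ (hKT W)).2.2.1
    have h3 : ∀ W : List (Ix (Lt d) n) → Om d N, ‖Op (kB kT f 0 a W) - T0‖ ≤ δ := by
      intro W
      have e3 := (hroot (Lt d) (List (Ix (Lt d) n)) n
        (fun l x y => kT (W l) x y - kf d x y) δ' (fun l => hdiff (W l)) f 0 a id).1
      rw [← kB_diff] at e3
      exact ((hop _ _ _ (hKT W)).2.2.2.2 _ _ _ hK0 e3).trans hN'
    have h4 : Measurable fun W : List (Ix (Lt d) n) → Om d N =>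
        Gr (HW (Op (kB kT f 0 a W)) b (fun v : Vt (Lt d) n => (W v.1).2 v.2)) z ([], 0) ([], 0) := by
      have := hmeas (Vt (Lt d) n) (List (Ix (Lt d) n) → Om d N)
        (fun W => kB (kNb b t) f (0 : Lt d) a W) (h + |a| * (n + 2) + b) hKb
        (fun x y => meas_kBb (kNb b t) (fun x y => meas_kNb b t x y) f 0 a x y) z ([], 0) ([], 0)
        hz0.ne'
      simp only [hOp] at this
      exact this
    have h5 : ∀ v : Vt (Lt d) n,
        Measurable fun W : List (Ix (Lt d) n) → Om d N => (W v.1).2 v.2 :=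
      fun v => (measurable_pi_apply v.2).comp (measurable_snd.comp (measurable_pi_apply v.1))
    have h6 : ∀ v : Vt (Lt d) n, ∫⁻ W : List (Ix (Lt d) n) → Om d N,
        ENNReal.ofReal ((W v.1).2 v.2 ^ 2) ∂P ≤ ENNReal.ofReal δ := by
      intro v
      rw [hP, law_tree hsep hN ν (fun v => ENNReal.ofReal (v ^ 2)) hM2f v]
      exact hM2
    have h7 : ∫⁻ W : List (Ix (Lt d) n) → Om d N,
        ENNReal.ofReal ((W ([] : List (Ix (Lt d) n))).2 0 ^ 12) ∂P ≤ 1 := by
      have := law_tree hsep hN ν (fun v => ENNReal.ofReal (v ^ 12)) hM12f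
        (([], 0) : Vt (Lt d) n)
      rw [hP]
      exact (le_of_eq this).trans hM12
    have hG : Gr T0 z ([], 0) ([], 0) = gZ d z :=
      (free_treek hop hroot (d := d) (n := n) f (fun _ => ()) z hz0.ne').trans hfz
    have h8 := hmain (Vt (Lt d) n) (List (Ix (Lt d) n) → Om d N) P T0
      (fun W => Op (kB kT f 0 a W)) (fun W v => (W v.1).2 v.2) ([], 0) b z h0 h1 h2 h3 h4 h5
      h6 h7 hb hre hz3 hz4 (by rw [hG]; exact hgz)
    rw [hG] at h8
    unfold GB
    simp only [hOp]
    exact h8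

/-- **Comparison with the free operator**, the statements of project Y being proved. -/
theorem closeb (hnear : S_near) (hopb : S_opb) : S_closeb :=
  closeb' Pool.Agent.H168.Y987.op (Pool.Agent.H410.Y987.troot Pool.Agent.H168.Y987.op)
    (Pool.Agent.H800.Y987.meas Pool.Agent.H168.Y987.op)
    (Pool.Agent.H788.Y987.free Pool.Agent.H168.Y987.op) Pool.Agent.H796.Y987.sep hnear hopb

end Pool.Agent.H190.GA
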